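import Pool.Agent.W662.KKS.Stmts3
import Pool.Agent.W663.KK.Masa
import Pool.Agent.Helper278.Factor

/-!
Project KKS, part LG3: cutting down by projections of the masa.
-/

set_option autoImplicit false
set_option linter.unusedSectionVars false

open Filter Topology
open scoped InnerProductSpace ComplexOrder
open Pool.Agent.Helper278

namespace Pool.Agent.W63.KKS

open Pool.Agent.W662.KKS
open Pool.Agent.W663.KK (mean Bd mean_tendsto mean_norm mean_add mean_const mean_mul mean_star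
  mean_shift mean_mem mean_vec mean_sub mem_vn_iff mem_masa_iff UI UI_mem UI_unitary UG_comm
  comm_of_unitaries norm_unitary_le)

variable {H : Type} [NormedAddCommGroup H] [InnerProductSpace ℂ H] [CompleteSpace H]

/-- continuous functions of an element of a masa are in the masa -/
theorem cfc_mem {M : VonNeumannAlgebra H} {A : StarSubalgebra ℂ (H →L[ℂ] H)} (hA : IsMasa M A)
    {h : H →L[ℂ] H} (hh : h ∈ A) (f : ℝ → ℝ) : cfc f h ∈ A := by
  rw [mem_masa_iff hA]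
  intro t ht
  have h1 : t * h = h * t := (mem_masa_iff hA h).1 hh t ht
  have h2 : Commute h t := h1.symm
  exact (h2.cfc_real f).symm

/-- spectral cut of an element of a masa at `1/2` -/
theorem spec {M : VonNeumannAlgebra H} {A : StarSubalgebra ℂ (H →L[ℂ] H)} (hA : IsMasa M A)
    {h : H →L[ℂ] H} (hh : h ∈ A) (hs : star h = h) (hn : ‖h‖ ≤ 1) :
    ∃ p ∈ A, ∃ b ∈ A, star p = p ∧ p * p = p ∧ ‖b‖ ≤ 2 ∧ b * h * p = p ∧
      ∀ v : H, ‖(1 - p) v‖ ^ 2 ≤ 2 * (⟪v, (1 - h) v⟫_ℂ).re := by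
  have hsa : IsSelfAdjoint h := hs
  set g : ℝ → ℝ := fun t => max (t - 1 / 2) 0 with hg
  set f : ℝ → ℝ := fun t => (max t (1 / 2))⁻¹ with hf
  have hgc : Continuous g := by fun_prop
  have hfc : Continuous f := by
    refine Continuous.inv₀ (by fun_prop) fun t => ?_
    have : (1 / 2 : ℝ) ≤ max t (1 / 2) := le_max_right _ _
    positivity
  set G := cfc g h with hG
  set B := cfc f h with hB
  have hGA : G ∈ A := cfc_mem hA hh g
  have hBA : B ∈ A := cfc_mem hA hh f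
  have hGs : star G = G := (cfc_predicate g h : IsSelfAdjoint _)
  -- the projection
  let K : Submodule ℂ H := (LinearMap.range (G : H →ₗ[ℂ] H)).topologicalClosure
  have hKc : IsClosed (K : Set H) := Submodule.isClosed_topologicalClosure _
  have hKcs : CompleteSpace K := hKc.completeSpace_coe
  set p := K.starProjection with hp
  have hinv : ∀ t : H →L[ℂ] H, t * G = G * t → ∀ v ∈ K, t v ∈ K := by
    intro t ht
    have h1 : LinearMap.range (G : H →ₗ[ℂ] H) ≤ K.comap (t : H →ₗ[ℂ] H) := by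
      rintro v ⟨u, rfl⟩
      show t (G u) ∈ K
      have h2 : t (G u) = G (t u) := by
        have := congrArg (fun T : H →L[ℂ] H => T u) ht
        exact this
      rw [h2]
      exact Submodule.le_topologicalClosure _ ⟨t u, rfl⟩
    have h2 : IsClosed ((K.comap (t : H →ₗ[ℂ] H) : Submodule ℂ H) : Set H) :=
      hKc.preimage t.continuous
    exact fun v hv => Submodule.topologicalClosure_minimal _ h1 h2 hv
  have hpA : p ∈ A := by
    rw [mem_masa_iff hA]
    intro t ht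
    have h1 : t * G = G * t := (mem_masa_iff hA G).1 hGA t ht
    have h2 : star t * G = G * star t := by
      have h3 := congrArg star h1
      rw [star_mul, star_mul, hGs] at h3
      exact h3.symm
    exact (commute_starProjection K t (hinv t h1) (hinv _ h2)).symm
  have hpp : p * p = p := by
    have := K.isIdempotentElem_starProjection
    exact this
  have hps : star p = p := by
    have := isSelfAdjoint_starProjection K
    exact this
  have hGp : p * G = G := by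
    ext v
    show K.starProjection (G v) = G v
    rw [Submodule.starProjection_eq_self_iff]
    exact Submodule.le_topologicalClosure _ ⟨v, rfl⟩
  have hGp' : G * p = G := by
    have := congrArg star hGp
    rwa [star_mul, hGs, hps] at this
  -- killing
  have hkill : ∀ T : H →L[ℂ] H, T * G = 0 → T * p = 0 := by
    intro T hT
    ext v
    show T (K.starProjection v) = 0
    have h1 : K ≤ LinearMap.ker (T : H →ₗ[ℂ] H) := by
      refine Submodule.topologicalClosure_minimal _ ?_ T.isClosed_ker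
      rintro w ⟨u, rfl⟩
      show T (G u) = 0
      have := congrArg (fun T : H →L[ℂ] H => T u) hT
      exact this
    exact h1 (K.starProjection_apply_mem v)
  have hBh : B * h * p = p := by
    have h1 : (B * h - 1) * G = 0 := by
      have e1 : B * h = cfc (fun t => f t * t) h := by
        rw [cfc_mul (f := f) (g := fun t => t) (a := h) (hf := hfc.continuousOn)
            (hg := continuousOn_id), cfc_id' ℝ h]
      have e0 : Continuous (fun t : ℝ => f t * t) := hfc.mul continuous_id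
      have e3 : B * h * G = G := by
        rw [e1, hG, ← cfc_mul (f := fun t => f t * t) (g := g) (a := h) (hf := e0.continuousOn)
          (hg := hgc.continuousOn)]
        congr 1
        funext t
        show (max t (1 / 2))⁻¹ * t * max (t - 1 / 2) 0 = max (t - 1 / 2) 0
        rcases le_or_gt (1 / 2) t with h1 | h1
        · have h2 : t ≠ 0 := by linarith
          rw [max_eq_left h1, inv_mul_cancel₀ h2, one_mul]
        · rw [max_eq_right (by linarith : t - 1 / 2 ≤ 0), mul_zero]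
      rw [sub_mul, e3, one_mul, sub_self]
    have h2 := hkill _ h1
    rw [sub_mul, one_mul, sub_eq_zero] at h2
    exact h2
  have hBn : ‖B‖ ≤ 2 := by
    refine norm_cfc_le (by norm_num) fun t _ => ?_
    show ‖(max t (1 / 2))⁻¹‖ ≤ 2
    have h1 : (1 / 2 : ℝ) ≤ max t (1 / 2) := le_max_right _ _
    rw [Real.norm_eq_abs, abs_of_nonneg (by positivity)]
    rw [inv_le_comm₀ (by positivity) (by norm_num)]
    linarith
  refine ⟨p, hpA, B, hBA, hps, hpp, hBn, hBh, ?_⟩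
  intro v
  have hTpos : 0 ≤ cfc (fun t : ℝ => 1 / 2 + g t - t) h := by
    refine cfc_nonneg fun t _ => ?_
    show 0 ≤ 1 / 2 + max (t - 1 / 2) 0 - t
    have := le_max_left (t - 1 / 2) 0
    linarith
  have hT : cfc (fun t : ℝ => 1 / 2 + g t - t) h = (1 / 2 : ℝ) • (1 : H →L[ℂ] H) + G - h := by
    rw [cfc_sub (f := fun t : ℝ => 1 / 2 + g t) (g := fun t => t) (a := h) (hf := by fun_prop)
      (hg := by fun_prop), cfc_const_add (r := 1 / 2) (f := g) (a := h) (hf := hgc.continuousOn),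
      cfc_id' ℝ h, Algebra.algebraMap_eq_smul_one]
  rw [hT] at hTpos
  have hpos : ∀ w : H, 0 ≤ (⟪w, ((1 / 2 : ℝ) • (1 : H →L[ℂ] H) + G - h) w⟫_ℂ).re := by
    intro w
    have h1 := (ContinuousLinearMap.nonneg_iff_isPositive _).1 hTpos
    exact h1.re_inner_nonneg_right w
  set w := (1 - p) v with hw
  have hGw : G w = 0 := by
    have h1 : G * (1 - p) = 0 := by rw [mul_sub, mul_one, hGp', sub_self]
    exact congrArg (fun T : H →L[ℂ] H => T v) h1
  have h1 : (⟪w, h w⟫_ℂ).re ≤ 1 / 2 * ‖w‖ ^ 2 := by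
    have h2 := hpos w
    have h3 : ((1 / 2 : ℝ) • (1 : H →L[ℂ] H) + G - h) w = (1 / 2 : ℝ) • w - h w := by
      show (1 / 2 : ℝ) • w + G w - h w = _
      rw [hGw, add_zero]
    have h4 : (⟪w, (1 / 2 : ℝ) • w⟫_ℂ).re = 1 / 2 * ‖w‖ ^ 2 := by
      rw [RCLike.real_smul_eq_coe_smul (K := ℂ), inner_smul_right, inner_self_eq_norm_sq_to_K]
      norm_cast
    rw [h3, inner_sub_right, Complex.sub_re, h4] at h2
    linarith
  have h2 : (⟪p v, h (p v)⟫_ℂ).re ≤ ‖p v‖ ^ 2 := by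
    have h3 : (⟪p v, h (p v)⟫_ℂ).re ≤ ‖p v‖ * ‖h (p v)‖ :=
      (Complex.re_le_norm _).trans (norm_inner_le_norm _ _)
    have h4 : ‖h (p v)‖ ≤ 1 * ‖p v‖ := (h.le_opNorm _).trans
      (mul_le_mul_of_nonneg_right hn (norm_nonneg _))
    nlinarith [norm_nonneg (p v)]
  have hhp : h * p = p * h := hA.comm h hh p hpA
  have hdec : (1 : H →L[ℂ] H) - h = p * (1 - h) * p + (1 - p) * (1 - h) * (1 - p) := by
    have e1 : p * h * p = h * p := by rw [← hhp, mul_assoc, hpp]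
    have e2 : (1 - p) * (1 - h) * (1 - p)
        = 1 - p - p + p * p - (h - p * h - h * p + p * h * p) := by noncomm_ring
    have e3 : p * (1 - h) * p = p * p - p * h * p := by noncomm_ring
    rw [e2, e3, e1, hpp, ← hhp]
    abel
  have hsplit : ⟪v, (1 - h) v⟫_ℂ = ⟪p v, (1 - h) (p v)⟫_ℂ + ⟪w, (1 - h) w⟫_ℂ := by
    have hq : star (1 - p : H →L[ℂ] H) = 1 - p := by rw [star_sub, star_one, hps]
    have f1 : ⟪v, (p * (1 - h) * p) v⟫_ℂ = ⟪p v, (1 - h) (p v)⟫_ℂ := by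
      conv_rhs => rw [← hps]
      rw [ContinuousLinearMap.star_eq_adjoint, ContinuousLinearMap.adjoint_inner_left,
        ← ContinuousLinearMap.star_eq_adjoint, hps]
      rfl
    have f2 : ⟪v, ((1 - p) * (1 - h) * (1 - p)) v⟫_ℂ = ⟪w, (1 - h) w⟫_ℂ := by
      rw [hw]
      conv_rhs => rw [← hq]
      rw [ContinuousLinearMap.star_eq_adjoint, ContinuousLinearMap.adjoint_inner_left,
        ← ContinuousLinearMap.star_eq_adjoint, hq]
      rfl
    rw [← f1, ← f2, ← inner_add_right, ← add_apply, ← hdec]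
  have g1 : (⟪p v, (1 - h) (p v)⟫_ℂ).re = ‖p v‖ ^ 2 - (⟪p v, h (p v)⟫_ℂ).re := by
    rw [sub_apply, one_apply_eq_self, inner_sub_right, Complex.sub_re, inner_self_eq_norm_sq_to_K]
    congr 1
    norm_cast
  have g2 : (⟪w, (1 - h) w⟫_ℂ).re = ‖w‖ ^ 2 - (⟪w, h w⟫_ℂ).re := by
    rw [sub_apply, one_apply_eq_self, inner_sub_right, Complex.sub_re, inner_self_eq_norm_sq_to_K]
    congr 1
    norm_cast
  rw [hsplit, Complex.add_re, g1, g2]
  nlinarith

theorem proj_norm {e : H →L[ℂ] H} (hs : star e = e) (he : e * e = e) : ‖e‖ ≤ 1 := by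
  have h1 := CStarRing.norm_star_mul_self (x := e)
  rw [hs, he] at h1
  by_contra h2
  push Not at h2
  nlinarith

section avg

variable {M : VonNeumannAlgebra H} {A : StarSubalgebra ℂ (H →L[ℂ] H)}

/-- the conjugates of `e` by the unitaries of `A` -/
noncomputable def cj (A : StarSubalgebra ℂ (H →L[ℂ] H)) (e : H →L[ℂ] H)
    (g : Pool.Agent.W663.KK.UG A) : H →L[ℂ] H := UI A g * e * star (UI A g)

theorem u1 (g : Pool.Agent.W663.KK.UG A) : UI A g * star (UI A g) = 1 :=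
  (Unitary.mem_iff.1 (UI_unitary A g)).2

theorem u2 (g : Pool.Agent.W663.KK.UG A) : star (UI A g) * UI A g = 1 :=
  (Unitary.mem_iff.1 (UI_unitary A g)).1

theorem norm_le_one_of {u : H →L[ℂ] H} (hu : star u * u = 1) : ‖u‖ ≤ 1 := by
  have h1 : ‖star u * u‖ = ‖u‖ * ‖u‖ := CStarRing.norm_star_mul_self
  rw [hu] at h1
  have h2 : ‖(1 : H →L[ℂ] H)‖ ≤ 1 := ContinuousLinearMap.norm_id_le
  nlinarith [norm_nonneg u]

theorem n1 (g : Pool.Agent.W663.KK.UG A) : ‖UI A g‖ ≤ 1 := norm_le_one_of (u2 g)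

theorem n2 (g : Pool.Agent.W663.KK.UG A) : ‖star (UI A g)‖ ≤ 1 := by rw [norm_star]; exact n1 g

theorem cj_norm {e : H →L[ℂ] H} (he : ‖e‖ ≤ 1) (g : Pool.Agent.W663.KK.UG A) :
    ‖cj A e g‖ ≤ 1 := by
  calc ‖cj A e g‖ ≤ ‖UI A g‖ * ‖e‖ * ‖star (UI A g)‖ :=
        (norm_mul_le _ _).trans (mul_le_mul_of_nonneg_right (norm_mul_le _ _) (norm_nonneg _))
    _ ≤ 1 * 1 * 1 := by
        refine mul_le_mul (mul_le_mul (n1 g) he (norm_nonneg _) zero_le_one) (n2 g)
          (norm_nonneg _) (by norm_num)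
    _ = 1 := by ring

theorem cj_mem (hA : IsMasa M A) {e : H →L[ℂ] H} (he : e ∈ M) (g : Pool.Agent.W663.KK.UG A) :
    cj A e g ∈ M :=
  mul_mem (mul_mem (hA.le _ (UI_mem A g)) he) (star_mem (hA.le _ (UI_mem A g)))

theorem mean_cj_mem (hA : IsMasa M A) {e : H →L[ℂ] H} (he : e ∈ M) (hn : ‖e‖ ≤ 1) :
    mean (cj A e) ∈ A := by
  have hb : Bd (cj A e) := ⟨1, cj_norm hn⟩
  apply hA.max
  · exact mean_mem M hb fun g => cj_mem hA he g
  · apply comm_of_unitaries hA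
    intro h
    have h1 : mean (fun g => cj A e (h * g)) = mean (cj A e) := mean_shift (UG_comm hA) hb h
    have h2 : mean (fun g => cj A e (h * g)) = UI A h * mean (cj A e) * star (UI A h) := by
      rw [← mean_mul hb]
      congr 1
      funext g
      show UI A (h * g) * e * star (UI A (h * g)) = _
      rw [map_mul, star_mul]
      show _ = UI A h * (UI A g * e * star (UI A g)) * star (UI A h)
      noncomm_ring
    rw [h1] at h2
    calc mean (cj A e) * UI A h = UI A h * mean (cj A e) * star (UI A h) * UI A h := by rw [← h2]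
      _ = UI A h * mean (cj A e) := by rw [mul_assoc, u2, mul_one]

theorem mean_cj_star {e : H →L[ℂ] H} (hs : star e = e) (hn : ‖e‖ ≤ 1) :
    star (mean (cj A e)) = mean (cj A e) := by
  have hb : Bd (cj A e) := ⟨1, cj_norm hn⟩
  rw [← mean_star hb]
  congr 1
  funext g
  show star (UI A g * e * star (UI A g)) = UI A g * e * star (UI A g)
  rw [star_mul, star_mul, star_star, hs, mul_assoc]

theorem mean_cj_tr {ξ : H} {ρ : (H →L[ℂ] H) → (H →L[ℂ] H)} (hstd : Std M ξ ρ) (hA : IsMasa M A)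
    {e : H →L[ℂ] H} (he : e ∈ M) (hn : ‖e‖ ≤ 1) :
    ⟪ξ, mean (cj A e) ξ⟫_ℂ = ⟪ξ, e ξ⟫_ℂ := by
  have hb : Bd (cj A e) := ⟨1, cj_norm hn⟩
  refine mean_vec hb ξ ξ _ fun g => ?_
  have h1 := hstd.tr (UI A g * e) (mul_mem (hA.le _ (UI_mem A g)) he) (star (UI A g))
    (star_mem (hA.le _ (UI_mem A g)))
  have h2 : (UI A g * e) ((star (UI A g)) ξ) = cj A e g ξ := rfl
  have h3 : (star (UI A g)) ((UI A g * e) ξ) = e ξ := by
    have h4 : star (UI A g) * (UI A g * e) = e := by rw [← mul_assoc, u2, one_mul]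
    exact congrArg (fun T : H →L[ℂ] H => T ξ) h4
  rw [h2, h3] at h1
  exact h1

/-- `ρ` commutes with the means -/
theorem mean_rho {ξ : H} {ρ : (H →L[ℂ] H) → (H →L[ℂ] H)} (hstd : Std M ξ ρ) (hA : IsMasa M A)
    {e : H →L[ℂ] H} (he : e ∈ M) (hn : ‖e‖ ≤ 1) :
    mean (fun g => ρ (cj A e g)) = ρ (mean (cj A e)) := by
  have hb : Bd (cj A e) := ⟨1, cj_norm hn⟩
  have hbr : Bd (fun g => ρ (cj A e g)) :=
    ⟨1, fun g => by rw [hstd.norm _ (cj_mem hA he g)]; exact cj_norm hn g⟩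
  set h := mean (cj A e) with hh
  set k := mean (fun g => ρ (cj A e g)) with hk
  have hhM : h ∈ M := mean_mem M hb fun g => cj_mem hA he g
  have hx : ∀ x ∈ M, k (x ξ) = ρ h (x ξ) := by
    intro x hx
    have e1 : mean (fun g => 1 * ρ (cj A e g) * x) = 1 * k * x := mean_mul hbr 1 x
    have e2 : mean (fun g => x * cj A e g * 1) = x * h * 1 := mean_mul hb x 1
    have b1 : Bd (fun g => 1 * ρ (cj A e g) * x) := by
      refine ⟨1 * ‖x‖, fun g => ?_⟩
      show ‖1 * ρ (cj A e g) * x‖ ≤ 1 * ‖x‖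
      refine (norm_mul_le _ _).trans (mul_le_mul_of_nonneg_right ?_ (norm_nonneg _))
      rw [one_mul, hstd.norm _ (cj_mem hA he g)]
      exact cj_norm hn g
    have b2 : Bd (fun g => x * cj A e g * 1) := by
      refine ⟨‖x‖ * 1, fun g => ?_⟩
      show ‖x * cj A e g * 1‖ ≤ ‖x‖ * 1
      rw [mul_one (x * cj A e g)]
      exact (norm_mul_le _ _).trans (mul_le_mul_of_nonneg_left (cj_norm hn g) (norm_nonneg _))
    have e3 := mean_sub b1 b2
    have b3 : Bd (fun g => 1 * ρ (cj A e g) * x - x * cj A e g * 1) := by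
      obtain ⟨C1, hC1⟩ := b1
      obtain ⟨C2, hC2⟩ := b2
      exact ⟨C1 + C2, fun g => (norm_sub_le _ _).trans (add_le_add (hC1 g) (hC2 g))⟩
    have e4 : ∀ η : H, ⟪η, mean (fun g => 1 * ρ (cj A e g) * x - x * cj A e g * 1) ξ⟫_ℂ = 0 := by
      intro η
      refine mean_vec b3 η ξ 0 fun g => ?_
      have h1 : (1 * ρ (cj A e g) * x - x * cj A e g * 1) ξ = 0 := by
        rw [one_mul, mul_one, hstd.comm _ (cj_mem hA he g) x hx]
        show x (ρ (cj A e g) ξ) - x (cj A e g ξ) = 0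
        rw [hstd.vec _ (cj_mem hA he g), sub_self]
      rw [h1, inner_zero_right]
    rw [e3, e1, e2, one_mul, mul_one] at e4
    have e5 : (k * x - x * h) ξ = 0 := ext_inner_left ℂ fun η => by rw [e4, inner_zero_right]
    have e6 : k (x ξ) = x (h ξ) := sub_eq_zero.1 e5
    rw [e6, ← hstd.vec h hhM]
    have e7 := congrArg (fun T : H →L[ℂ] H => T ξ) (hstd.comm h hhM x hx)
    exact e7.symm
  ext v
  have h1 : ∀ ε : ℝ, 0 < ε → ‖(k - ρ h) v‖ ≤ ‖k - ρ h‖ * ε := by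
    intro ε hε
    obtain ⟨x, hxM, hxv⟩ := hstd.cyc v ε hε
    have h2 : (k - ρ h) v = (k - ρ h) (v - x ξ) := by
      rw [map_sub]
      have h3 : (k - ρ h) (x ξ) = 0 := by
        rw [sub_apply, hx x hxM, sub_self]
      rw [h3, sub_zero]
    rw [h2]
    exact ((k - ρ h).le_opNorm _).trans (mul_le_mul_of_nonneg_left hxv (norm_nonneg _))
  have h2 : ‖(k - ρ h) v‖ ≤ 0 := by
    have h3 : Tendsto (fun ε : ℝ => ‖k - ρ h‖ * ε) (𝓝[>] 0) (𝓝 (‖k - ρ h‖ * 0)) :=
      ((continuous_const.mul continuous_id).tendsto (0 : ℝ)).mono_left nhdsWithin_le_nhds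
    rw [mul_zero] at h3
    refine ge_of_tendsto h3 ?_
    filter_upwards [self_mem_nhdsWithin] with ε hε
    exact h1 ε hε
  have h3 : (k - ρ h) v = 0 := norm_le_zero_iff.1 h2
  exact sub_eq_zero.1 h3

end avg

theorem lg3 (h : S_LG2) : S_LG3 := by
  intro H _ _ _ M ξ ρ A hstd hA S D hD hS hSA hSR κ hκ
  obtain ⟨r, hr, r', hr', hrs, hrr, hrs', hrr', ht, ht', hn⟩ := h H M ξ ρ hstd S D hD hS κ hκ
  have hrn := proj_norm hrs hrr
  have hrn' := proj_norm hrs' hrr'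
  set h₁ := mean (cj A r) with hh1
  set h₂ := mean (cj A r') with hh2
  have hb : Bd (cj A r) := ⟨1, cj_norm hrn⟩
  have hb' : Bd (cj A r') := ⟨1, cj_norm hrn'⟩
  have hbr : Bd (fun g => ρ (cj A r g)) :=
    ⟨1, fun g => by rw [hstd.norm _ (cj_mem hA hr g)]; exact cj_norm hrn g⟩
  have hA1 : h₁ ∈ A := mean_cj_mem hA hr hrn
  have hA2 : h₂ ∈ A := mean_cj_mem hA hr' hrn'
  have hn1 : ‖h₁‖ ≤ 1 := mean_norm (cj_norm hrn)
  have hn2 : ‖h₂‖ ≤ 1 := mean_norm (cj_norm hrn')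
  have hs1 : star h₁ = h₁ := mean_cj_star hrs hrn
  have hs2 : star h₂ = h₂ := mean_cj_star hrs' hrn'
  have tr1 : ⟪ξ, h₁ ξ⟫_ℂ = ⟪ξ, r ξ⟫_ℂ := mean_cj_tr hstd hA hr hrn
  have tr2 : ⟪ξ, h₂ ξ⟫_ℂ = ⟪ξ, r' ξ⟫_ℂ := mean_cj_tr hstd hA hr' hrn'
  -- the norm of `S h₂ ρ h₁`
  have hC0 : 0 ≤ 4 * κ * D := by positivity
  have step1 : ∀ u v : Pool.Agent.W663.KK.UG A,
      ‖S * cj A r' u * ρ (cj A r v)‖ ≤ 4 * κ * D := by
    intro u v
    set a := UI A u with ha
    set b := UI A v with hb0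
    have haM : a ∈ M := hA.le _ (UI_mem A u)
    have hbM : b ∈ M := hA.le _ (UI_mem A v)
    have hasM : star a ∈ M := star_mem haM
    have hbsM : star b ∈ M := star_mem hbM
    have hbsA : star b ∈ A := star_mem (UI_mem A v)
    have e1 : ρ (cj A r v) = ρ (star b) * (ρ r * ρ b) := by
      show ρ (b * r * star b) = _
      rw [hstd.mul _ (mul_mem hbM hr) _ hbsM, hstd.mul _ hbM _ hr]
    have e2 : S * cj A r' u * ρ (cj A r v)
        = a * ρ (star b) * (S * (r' * ρ r)) * (star a * ρ b) := by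
      rw [e1]
      show S * (a * r' * star a) * (ρ (star b) * (ρ r * ρ b)) = _
      have c1 : S * a = a * S := hSA a (UI_mem A u)
      have c2 : S * ρ (star b) = ρ (star b) * S := hSR _ hbsA
      have c3 : star a * ρ (star b) = ρ (star b) * star a :=
        (hstd.comm _ hbsM _ hasM).symm
      have c4 : star a * ρ r = ρ r * star a := (hstd.comm _ hr _ hasM).symm
      have c5 : r' * ρ (star b) = ρ (star b) * r' := (hstd.comm _ hbsM _ hr').symm
      calc S * (a * r' * star a) * (ρ (star b) * (ρ r * ρ b))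
          = (S * a) * r' * (star a * ρ (star b)) * ρ r * ρ b := by noncomm_ring
        _ = a * S * (r' * ρ (star b)) * (star a * ρ r) * ρ b := by
            rw [c1, c3]; noncomm_ring
        _ = a * (S * ρ (star b)) * r' * (ρ r * star a) * ρ b := by
            rw [c5, c4]; noncomm_ring
        _ = a * ρ (star b) * (S * (r' * ρ r)) * (star a * ρ b) := by
            rw [c2]; noncomm_ring
    rw [e2]
    have m1 : ‖a‖ ≤ 1 := n1 u
    have m2 : ‖star a‖ ≤ 1 := n2 u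
    have m3 : ‖ρ (star b)‖ ≤ 1 := by rw [hstd.norm _ hbsM]; exact n2 v
    have m4 : ‖ρ b‖ ≤ 1 := by rw [hstd.norm _ hbM]; exact n1 v
    calc ‖a * ρ (star b) * (S * (r' * ρ r)) * (star a * ρ b)‖
        ≤ ‖a * ρ (star b) * (S * (r' * ρ r))‖ * ‖star a * ρ b‖ := norm_mul_le _ _
      _ ≤ ((1 * 1) * (4 * κ * D)) * (1 * 1) := by
          refine mul_le_mul ?_ ?_ (norm_nonneg _) (by positivity)
          · refine (norm_mul_le _ _).trans (mul_le_mul ?_ hn (norm_nonneg _) (by norm_num))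
            exact (norm_mul_le _ _).trans (mul_le_mul m1 m3 (norm_nonneg _) zero_le_one)
          · exact (norm_mul_le _ _).trans (mul_le_mul m2 m4 (norm_nonneg _) zero_le_one)
      _ = 4 * κ * D := by ring
  have step2 : ∀ v : Pool.Agent.W663.KK.UG A, ‖S * h₂ * ρ (cj A r v)‖ ≤ 4 * κ * D := by
    intro v
    rw [← mean_mul hb' S (ρ (cj A r v))]
    exact mean_norm fun u => step1 u v
  have step3 : ‖S * h₂ * ρ h₁‖ ≤ 4 * κ * D := by
    have e1 := mean_mul hbr (S * h₂) 1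
    rw [mean_rho hstd hA hr hrn, mul_one] at e1
    rw [← e1]
    refine mean_norm fun v => ?_
    rw [mul_one]
    exact step2 v
  obtain ⟨p₁, hp1, b₁, hb1, hps1, hpp1, hbn1, hbh1, hv1⟩ := spec hA hA1 hs1 hn1
  obtain ⟨p₂, hp2, b₂, hb2, hps2, hpp2, hbn2, hbh2, hv2⟩ := spec hA hA2 hs2 hn2
  have hcm := hA.comm
  have hpA : p₁ * p₂ ∈ A := mul_mem hp1 hp2
  have hpn1 := proj_norm hps1 hpp1
  have hpn2 := proj_norm hps2 hpp2
  have htr : ∀ (e : H →L[ℂ] H), star e = e → e * e = e →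
      (⟪ξ, (1 - e) ξ⟫_ℂ).re = ‖(1 - e) ξ‖ ^ 2 := by
    intro e hes hee
    have hq : star (1 - e : H →L[ℂ] H) = 1 - e := by rw [star_sub, star_one, hes]
    have hqq : (1 - e) * (1 - e) = 1 - e := by
      have : (1 - e) * (1 - e) = 1 - e - e + e * e := by noncomm_ring
      rw [this, hee]; abel
    have h1 : ⟪(1 - e) ξ, (1 - e) ξ⟫_ℂ = ⟪ξ, (1 - e) ξ⟫_ℂ := by
      conv_lhs => rw [← hq]
      rw [ContinuousLinearMap.star_eq_adjoint, ContinuousLinearMap.adjoint_inner_left,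
        ← ContinuousLinearMap.star_eq_adjoint, hq]
      exact congrArg (fun T : H →L[ℂ] H => ⟪ξ, T ξ⟫_ℂ) hqq
    rw [← h1, inner_self_eq_norm_sq_to_K]
    norm_cast
  have q1 : ‖(1 - p₁) ξ‖ ^ 2 ≤ 4 / κ ^ 2 := by
    refine (hv1 ξ).trans ?_
    have e1 : ⟪ξ, (1 - h₁) ξ⟫_ℂ = ⟪ξ, (1 - r) ξ⟫_ℂ := by
      rw [sub_apply, sub_apply, inner_sub_right, inner_sub_right, tr1]
    rw [e1, htr r hrs hrr]
    calc 2 * ‖(1 - r) ξ‖ ^ 2 ≤ 2 * (2 / κ ^ 2) := by linarith
      _ = 4 / κ ^ 2 := by ring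
  have q2 : ‖(1 - p₂) ξ‖ ^ 2 ≤ 4 / κ ^ 2 := by
    refine (hv2 ξ).trans ?_
    have e1 : ⟪ξ, (1 - h₂) ξ⟫_ℂ = ⟪ξ, (1 - r') ξ⟫_ℂ := by
      rw [sub_apply, sub_apply, inner_sub_right, inner_sub_right, tr2]
    rw [e1, htr r' hrs' hrr']
    calc 2 * ‖(1 - r') ξ‖ ^ 2 ≤ 2 * (2 / κ ^ 2) := by linarith
      _ = 4 / κ ^ 2 := by ring
  set p := p₁ * p₂ with hp
  have hp12 : p₁ * p₂ = p₂ * p₁ := hcm _ hp1 _ hp2
  have hpp : p * p = p := by
    rw [hp]
    calc p₁ * p₂ * (p₁ * p₂) = p₁ * (p₂ * p₁) * p₂ := by noncomm_ring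
      _ = (p₁ * p₁) * (p₂ * p₂) := by rw [← hp12]; noncomm_ring
      _ = p₁ * p₂ := by rw [hpp1, hpp2]
  have hps : star p = p := by rw [hp, star_mul, hps1, hps2, hp12]
  refine ⟨p, hpA, hps, hpp, ?_, ?_⟩
  · have e1 : (1 - p) ξ = (1 - p₁) ξ + p₁ ((1 - p₂) ξ) := by
      have e2 : (1 : H →L[ℂ] H) - p = (1 - p₁) + p₁ * (1 - p₂) := by rw [hp]; noncomm_ring
      rw [e2]
      rfl
    have e3 : ‖p₁ ((1 - p₂) ξ)‖ ≤ ‖(1 - p₂) ξ‖ := by
      refine (p₁.le_opNorm _).trans ?_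
      exact mul_le_of_le_one_left (norm_nonneg _) hpn1
    have e4 : ‖(1 - p) ξ‖ ≤ ‖(1 - p₁) ξ‖ + ‖(1 - p₂) ξ‖ := by
      rw [e1]
      exact (norm_add_le _ _).trans (add_le_add_right e3 _)
    have e5 : (16 : ℝ) / κ ^ 2 = 4 * (4 / κ ^ 2) := by ring
    rw [e5]
    nlinarith [norm_nonneg ((1 - p) ξ), norm_nonneg ((1 - p₁) ξ), norm_nonneg ((1 - p₂) ξ),
      sq_nonneg (‖(1 - p₁) ξ‖ - ‖(1 - p₂) ξ‖)]
  · have hpM : p ∈ M := hA.le _ hpA
    have k1 : p = h₁ * (b₁ * p) := by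
      calc p = p₂ * (b₁ * h₁ * p₁) := by rw [hbh1, hp, hp12]
        _ = (p₂ * (b₁ * h₁)) * p₁ := by noncomm_ring
        _ = ((b₁ * h₁) * p₂) * p₁ := by rw [hcm p₂ hp2 (b₁ * h₁) (mul_mem hb1 hA1)]
        _ = (b₁ * h₁) * (p₂ * p₁) := by noncomm_ring
        _ = (h₁ * b₁) * p := by rw [hcm b₁ hb1 h₁ hA1, ← hp12]
        _ = h₁ * (b₁ * p) := by noncomm_ring
    have k2 : p = h₂ * (b₂ * p) := by
      calc p = p₁ * (b₂ * h₂ * p₂) := by rw [hbh2]
        _ = (p₁ * (b₂ * h₂)) * p₂ := by noncomm_ring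
        _ = ((b₂ * h₂) * p₁) * p₂ := by rw [hcm p₁ hp1 (b₂ * h₂) (mul_mem hb2 hA2)]
        _ = (b₂ * h₂) * (p₁ * p₂) := by noncomm_ring
        _ = (h₂ * b₂) * p := by rw [hcm b₂ hb2 h₂ hA2]
        _ = h₂ * (b₂ * p) := by noncomm_ring
    have hbp1 : b₁ * p ∈ A := mul_mem hb1 hpA
    have hbp2 : b₂ * p ∈ A := mul_mem hb2 hpA
    have k3 : ρ p = ρ h₁ * ρ (b₁ * p) := by
      rw [← hstd.mul _ (hA.le _ hbp1) _ (hA.le _ hA1), ← hcm h₁ hA1 _ hbp1, ← k1]
    have k4 : (b₂ * p) * ρ h₁ = ρ h₁ * (b₂ * p) :=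
      (hstd.comm _ (hA.le _ hA1) _ (hA.le _ hbp2)).symm
    have k5 : S * (p * ρ p) = (S * h₂ * ρ h₁) * ((b₂ * p) * ρ (b₁ * p)) := by
      calc S * (p * ρ p) = S * ((h₂ * (b₂ * p)) * (ρ h₁ * ρ (b₁ * p))) := by rw [← k2, ← k3]
        _ = S * h₂ * ((b₂ * p) * ρ h₁) * ρ (b₁ * p) := by noncomm_ring
        _ = S * h₂ * (ρ h₁ * (b₂ * p)) * ρ (b₁ * p) := by rw [k4]
        _ = (S * h₂ * ρ h₁) * ((b₂ * p) * ρ (b₁ * p)) := by noncomm_ring
    rw [k5]
    have hpn : ‖p‖ ≤ 1 := proj_norm hps hpp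
    have w1 : ‖b₁ * p‖ ≤ 2 := by
      calc ‖b₁ * p‖ ≤ ‖b₁‖ * ‖p‖ := norm_mul_le _ _
        _ ≤ 2 * 1 := mul_le_mul hbn1 hpn (norm_nonneg _) (by norm_num)
        _ = 2 := by norm_num
    have w2 : ‖b₂ * p‖ ≤ 2 := by
      calc ‖b₂ * p‖ ≤ ‖b₂‖ * ‖p‖ := norm_mul_le _ _
        _ ≤ 2 * 1 := mul_le_mul hbn2 hpn (norm_nonneg _) (by norm_num)
        _ = 2 := by norm_num
    calc ‖(S * h₂ * ρ h₁) * ((b₂ * p) * ρ (b₁ * p))‖
        ≤ ‖S * h₂ * ρ h₁‖ * (‖b₂ * p‖ * ‖ρ (b₁ * p)‖) :=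
          (norm_mul_le _ _).trans (mul_le_mul_of_nonneg_left (norm_mul_le _ _) (norm_nonneg _))
      _ ≤ (4 * κ * D) * (2 * 2) := by
          refine mul_le_mul step3 (mul_le_mul w2 ?_ (norm_nonneg _) (by norm_num))
            (by positivity) hC0
          rw [hstd.norm _ (hA.le _ hbp1)]
          exact w1
      _ = 16 * κ * D := by ring

end Pool.Agent.W63.KKS
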