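import Pool.Agent.W662.KKS.Stmts3
import Pool.Agent.W663.KK.TrAgree
import Pool.Agent.Helper278.RGNC
import Pool.Agent.Helper278.GroupMain

/-!
Project KKS, part TRA: the traces of two close II₁ factors agree on a common masa, and are given
by the trace vector.
-/

set_option autoImplicit false
set_option linter.unusedSectionVars false

open scoped InnerProductSpace ComplexOrder
open Pool.Agent.Helper278

namespace Pool.Agent.W63.KKS

open Pool.Agent.W662.KKS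

section

variable {H : Type} [NormedAddCommGroup H] [InnerProductSpace ℂ H] [CompleteSpace H]

/-- the vector functional on `M` -/
noncomputable def vecF (M : VonNeumannAlgebra H) (ξ : H) : Elt M →ₗ[ℂ] ℂ where
  toFun x := ⟪ξ, (x : H →L[ℂ] H) ξ⟫_ℂ
  map_add' x y := by
    show ⟪ξ, ((x : H →L[ℂ] H) + (y : H →L[ℂ] H)) ξ⟫_ℂ = _
    rw [add_apply, inner_add_right]
  map_smul' c x := by
    show ⟪ξ, (c • (x : H →L[ℂ] H)) ξ⟫_ℂ = _
    rw [smul_apply, inner_smul_right]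
    rfl

theorem isTr_vecF (M : VonNeumannAlgebra H) (ξ : H) (ρ : (H →L[ℂ] H) → (H →L[ℂ] H))
    (h : Std M ξ ρ) : IsTr (vecF M ξ) where
  one := by
    show ⟪ξ, (1 : H →L[ℂ] H) ξ⟫_ℂ = 1
    rw [one_apply_eq_self, inner_self_eq_norm_sq_to_K, h.unit]
    norm_num
  comm x y := by
    show ⟪ξ, ((x : H →L[ℂ] H) * (y : H →L[ℂ] H)) ξ⟫_ℂ
      = ⟪ξ, ((y : H →L[ℂ] H) * (x : H →L[ℂ] H)) ξ⟫_ℂ
    exact h.tr x x.2 y y.2
  nonneg x := by
    show 0 ≤ ⟪ξ, (star (x : H →L[ℂ] H) * (x : H →L[ℂ] H)) ξ⟫_ℂ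
    rw [mul_apply_eq_comp, ContinuousLinearMap.star_eq_adjoint,
      ContinuousLinearMap.adjoint_inner_right, inner_self_eq_norm_sq_to_K]
    have h1 : ((‖(x : H →L[ℂ] H) ξ‖ : ℂ)) ^ 2 = ((‖(x : H →L[ℂ] H) ξ‖ ^ 2 : ℝ) : ℂ) := by
      push_cast
      rfl
    have h2 : (0 : ℂ) ≤ ((‖(x : H →L[ℂ] H) ξ‖ ^ 2 : ℝ) : ℂ) := by
      exact_mod_cast sq_nonneg ‖(x : H →L[ℂ] H) ξ‖
    rw [← h1] at h2
    exact h2

end

theorem tra : S_TRA := by
  refine ⟨4, by norm_num, ?_⟩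
  intro H _ _ _ M N τ σ ξ ρ A γ hM hN hI hγ p hpA h1 h2
  set TM := mkState M τ hM.normal hM.trace with hTM
  set TN := mkState N σ hN.normal hN.trace with hTN
  have hd : IsDiffuse M := diffuse_of_factor TM hM.center hM.infinite
  have h1s : (1 : H →L[ℂ] H) ∈ unitary (H →L[ℂ] H) := one_mem _
  have hv : ∀ a ∈ A, (1 : H →L[ℂ] H) * a * star (1 : H →L[ℂ] H) ∈ N := by
    intro a ha
    rw [one_mul, star_one, mul_one]
    exact hI.AN a ha
  have hclose : ∀ s ∈ M, ‖s‖ ≤ 1 → ∃ t ∈ N,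
      ‖t - (1 : H →L[ℂ] H) * s * star (1 : H →L[ℂ] H)‖ ≤ 1 / 4 := by
    intro s hs hs1
    obtain ⟨t, ht, hst⟩ := hI.n1 s hs
    refine ⟨t, ht, ?_⟩
    rw [one_mul, star_one, mul_one, norm_sub_rev]
    refine hst.trans ?_
    rcases le_or_gt 0 γ with h0 | h0
    · calc γ * ‖s‖ ≤ (1 / 4) * 1 := mul_le_mul hγ hs1 (norm_nonneg _) (by norm_num)
        _ = 1 / 4 := by norm_num
    · have h3 : γ * ‖s‖ ≤ 0 := mul_nonpos_of_nonpos_of_nonneg h0.le (norm_nonneg _)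
      linarith
  have e1 := Pool.Agent.W663.KK.traces_agree TM TN hM.center hd hI.masa h1s hv hclose p hpA
  have e2 : (⟨(1 : H →L[ℂ] H) * p * star (1 : H →L[ℂ] H), hv p hpA⟩ : Elt N) = ⟨p, h2⟩ := by
    apply Subtype.ext
    show (1 : H →L[ℂ] H) * p * star (1 : H →L[ℂ] H) = p
    rw [one_mul, star_one, mul_one]
  rw [e2] at e1
  have e3 := RG.trace_unique_base TM (lyapProp TM hd) hM.center (vecF M ξ)
    (isTr_vecF M ξ ρ hI.std) ⟨p, h1⟩
  exact ⟨e1.symm, e3.symm⟩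

end Pool.Agent.W63.KKS
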